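import Pool.Agent.Helper351.EG.MainAll

set_option autoImplicit false

namespace Pool.Agent.Results.MP_f04ccf_co.UpToSeven

open Finset

/-- The colouring `c` of the edges of the complete graph on `Fin n` has a set of `r + 1` vertices
that misses a colour. -/
def Misses {n r : ℕ} (c : Fin n → Fin n → Fin r) : Prop :=
  ∃ S : Finset (Fin n), S.card = r + 1 ∧
    ∃ k : Fin r, ∀ x ∈ S, ∀ y ∈ S, x ≠ y → c x y ≠ k

/-- The number of edges of colour `i` at the vertex `x`. -/
def colDeg {n r : ℕ} (c : Fin n → Fin n → Fin r) (i : Fin r) (x : Fin n) : ℕ :=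
  (univ.filter (fun y => x ≠ y ∧ c x y = i)).card

/-- (1) The question for all `3 ≤ r ≤ 7` (the cases `r = 5, 6, 7` are new).
(2) For every `r ≥ 3`, the question holds for all colourings of `K_{r^2+1}` in which some colour
class has maximum degree at most `r`.
(3) For every `r ≥ 3`, the question holds for all colourings in which some colour class contains no
clique with `r` vertices and has at most `r` vertices of degree greater than `r`.
(4) For every `r ≥ 6`, in a counterexample, for every colour `k`, any `3 r + 1` vertices contain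
four vertices spanning no edge of colour `k`.
(5) For every `r ≥ 4`, a counterexample has a colour `k` and `r (r - 3) + 1` vertices among which
any `r - 2` span an edge of colour `k`. -/
theorem result :
    (∀ r : ℕ, 3 ≤ r → r ≤ 7 → ∀ c : Fin (r ^ 2 + 1) → Fin (r ^ 2 + 1) → Fin r,
      (∀ x y, c x y = c y x) → Misses c) ∧
    (∀ r : ℕ, 3 ≤ r → ∀ c : Fin (r ^ 2 + 1) → Fin (r ^ 2 + 1) → Fin r, (∀ x y, c x y = c y x) →
      (∃ i : Fin r, ∀ x, colDeg c i x ≤ r) → Misses c) ∧
    (∀ r : ℕ, 3 ≤ r → ∀ c : Fin (r ^ 2 + 1) → Fin (r ^ 2 + 1) → Fin r, (∀ x y, c x y = c y x) →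
      (∃ i : Fin r,
        (∀ Q : Finset (Fin (r ^ 2 + 1)), Q.card = r → ∃ x ∈ Q, ∃ y ∈ Q, x ≠ y ∧ c x y ≠ i) ∧
        (univ.filter (fun x => r < colDeg c i x)).card ≤ r) → Misses c) ∧
    (∀ r : ℕ, 6 ≤ r → ∀ c : Fin (r ^ 2 + 1) → Fin (r ^ 2 + 1) → Fin r, (∀ x y, c x y = c y x) →
      ¬ Misses c → ∀ k : Fin r, ∀ W : Finset (Fin (r ^ 2 + 1)), W.card = 3 * r + 1 →
        ∃ T ⊆ W, T.card = 4 ∧ ∀ x ∈ T, ∀ y ∈ T, x ≠ y → c x y ≠ k) ∧
    (∀ r : ℕ, 4 ≤ r → ∀ c : Fin (r ^ 2 + 1) → Fin (r ^ 2 + 1) → Fin r, (∀ x y, c x y = c y x) →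
      ¬ Misses c → ∃ k : Fin r, ∃ W : Finset (Fin (r ^ 2 + 1)), W.card = r * (r - 3) + 1 ∧
        ∀ T ⊆ W, T.card = r - 2 → ∃ x ∈ T, ∃ y ∈ T, x ≠ y ∧ c x y = k) := by
  refine ⟨?_, ?_, ?_, ?_, ?_⟩
  · intro r h3 h7 c hc
    interval_cases r
    · exact Pool.Agent.Helper351.EG.three c hc
    · exact Pool.Agent.Helper351.EG.four c hc
    · exact Pool.Agent.Helper351.EG.five c hc
    · exact Pool.Agent.Helper351.EG.six c hc
    · exact Pool.Agent.Helper351.EG.seven c hc
  · rintro r hr c hc ⟨i, hi⟩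
    exact Pool.Agent.Helper351.EG.bounded_colour r hr c hc i hi
  · rintro r hr c hc ⟨i, hK, hi⟩
    exact Pool.Agent.Helper351.EG.high_colour r hr c hc i hK hi
  · intro r hr c hc hm k W hW
    exact Pool.Agent.Helper351.EG.local_density r hr c hc
      (Pool.Agent.Helper351.EG.AllSee_of_not c hm) k W hW
  · intro r hr c hc hm
    exact Pool.Agent.Helper351.EG.three_down r hr c hc
      (Pool.Agent.Helper351.EG.AllSee_of_not c hm)

end Pool.Agent.Results.MP_f04ccf_co.UpToSeven
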